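import Pool.Agent.L5helper98.CG.Defs

/-! CG piece BDD. -/

set_option autoImplicit false

open MeasureTheory ProbabilityTheory Filter Topology Set
open scoped ENNReal

namespace Pool.Agent.L5helper50.CG

open Pool.Agent.L5helper98.CG

lemma dst_self (c : Bool) (t : ℝ) : dst c t t = 0 := by
  unfold dst
  cases c <;> simp

theorem cov_le {c : Bool} {r : ℝ → ℝ} {μ ε : ℝ} {Ω : Type} [MeasurableSpace Ω]
    {P : Measure Ω} [IsProbabilityMeasure P] {ω : ℝ → Ω → ℝ} (h : Field c r μ ε P ω) {s t : ℝ}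
    (hs : s ∈ Ico (0 : ℝ) 1) (ht : t ∈ Ico (0 : ℝ) 1) : |cv r μ ε (dst c s t)| ≤ cv r μ ε 0 := by
  have hL : ∀ u ∈ Ico (0 : ℝ) 1, MemLp (ω u) 2 P := fun u hu =>
    (h.gauss.hasGaussianLaw_eval (⟨u, hu⟩ : Ico (0 : ℝ) 1)).memLp_two
  have hV : ∀ u ∈ Ico (0 : ℝ) 1, Var[ω u; P] = cv r μ ε 0 := by
    intro u hu
    rw [← covariance_self (hL u hu).aestronglyMeasurable.aemeasurable, h.cov u hu u hu, dst_self]
  have h1 := variance_add (hL s hs) (hL t ht)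
  have h2 := variance_sub (hL s hs) (hL t ht)
  have h3 := variance_nonneg (ω s + ω t) P
  have h4 := variance_nonneg (ω s - ω t) P
  rw [h1, hV s hs, hV t ht, h.cov s hs t ht] at h3
  rw [h2, hV s hs, hV t ht, h.cov s hs t ht] at h4
  rw [abs_le]
  constructor <;> linarith

theorem BDD_holds : St_BDD := by
  intro c r μ _ hμ hfr δ hδ
  have hev : ∀ᶠ ε : ℝ in 𝓝[>] 0, 0 < ε ∧ ε < δ := by
    have h1 : Ioo (0 : ℝ) δ ∈ 𝓝[>] (0 : ℝ) := Ioo_mem_nhdsGT hδ.1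
    exact h1
  obtain ⟨ε, ⟨Ω, mΩ, P, hP, ω, hω⟩, hε0, hεδ⟩ := (hfr.and_eventually hev).exists
  refine ⟨cv r μ ε 0 / μ, fun d hd hd1 hc => ?_⟩
  have hd0 : 0 ≤ d := by linarith [hδ.1]
  have h1 := cov_le hω (s := 0) (t := d) ⟨le_rfl, one_pos⟩ ⟨hd0, hd1⟩
  have h2 : dst c 0 d = d := by
    unfold dst
    rw [zero_sub, abs_neg, abs_of_nonneg hd0]
    split_ifs with h
    · have := hc h
      exact min_eq_left (by linarith)
    · rfl
  rw [h2] at h1
  have h3 : cv r μ ε d = -(μ * Real.log (r d)) := by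
    unfold cv
    rw [if_pos (by linarith)]
  rw [h3, abs_neg, abs_mul, abs_of_pos hμ] at h1
  rw [le_div_iff₀ hμ]
  linarith

end Pool.Agent.L5helper50.CG
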