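import Mathlib

/-!
# Abstract parts of the negative moments (CG-NEG)
-/

set_option autoImplicit false

open MeasureTheory Filter Topology
open scoped ENNReal

namespace Pool.Agent.L5helper50.CGNeg

/-- (A) a lower bound of `P (Z ≥ 1/2)` from `E Z = 1` and `E Z ^ q ≤ B`, `q > 1`. -/
theorem smallball {B : ℝ≥0∞} (hB : B < ∞) {q : ℝ} (hq : 1 < q) :
    ∃ c : ℝ, 0 < c ∧ c ≤ 1 ∧ ∀ {X : Type} [MeasurableSpace X] (ν : Measure X)
      [IsProbabilityMeasure ν] (Z : X → ℝ), Measurable Z → (∀ x, 0 < Z x) →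
      ∫⁻ x, ENNReal.ofReal (Z x) ∂ν = 1 → ∫⁻ x, ENNReal.ofReal (Z x ^ q) ∂ν ≤ B →
      ν {x | Z x < 1 / 2} ≤ ENNReal.ofReal (1 - c) := by
  set b : ℝ := B.toReal with hb
  have hb0 : 0 ≤ b := ENNReal.toReal_nonneg
  set t : ℝ := (1 + 4 * b) ^ (1 / (q - 1)) with ht
  have hq1 : 0 < q - 1 := by linarith
  have ht1 : 1 ≤ t := Real.one_le_rpow (by linarith) (by positivity)
  have ht0 : 0 < t := by linarith
  have htq : t ^ (1 - q) * b ≤ 1 / 4 := by
    have h1 : t ^ (1 - q) = (1 + 4 * b)⁻¹ := by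
      rw [ht, ← Real.rpow_mul (by linarith), show 1 / (q - 1) * (1 - q) = -1 by
        field_simp; ring, Real.rpow_neg_one]
    rw [h1, inv_mul_le_iff₀ (by linarith)]
    linarith
  refine ⟨1 / (4 * t), by positivity, ?_, ?_⟩
  · rw [div_le_one (by positivity)]; linarith
  intro X _ ν _ Z hZm hZ0 hZ1 hZq
  set A : Set X := {x | Z x < 1 / 2} with hA
  have hAm : MeasurableSet A := measurableSet_lt hZm measurable_const
  have hpt : ∀ x, ENNReal.ofReal (Z x) ≤ ENNReal.ofReal (1 / 2) +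
      (Aᶜ.indicator (fun _ => ENNReal.ofReal t) x +
        ENNReal.ofReal (t ^ (1 - q)) * ENNReal.ofReal (Z x ^ q)) := by
    intro x
    by_cases hx : x ∈ A
    · have hx' : Z x < 1 / 2 := hx
      exact (ENNReal.ofReal_le_ofReal hx'.le).trans le_self_add
    · rw [Set.indicator_of_mem (show x ∈ Aᶜ from hx), ← ENNReal.ofReal_mul (by positivity)]
      refine le_trans ?_ le_add_self
      rw [← ENNReal.ofReal_add ht0.le (by have := hZ0 x; positivity)]
      apply ENNReal.ofReal_le_ofReal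
      rcases le_total (Z x) t with h | h
      · have : 0 ≤ t ^ (1 - q) * Z x ^ q := by have := hZ0 x; positivity
        linarith
      · have h2 : Z x = Z x ^ (1 - q) * Z x ^ q := by
          rw [← Real.rpow_add (hZ0 x)]; simp
        have h3 : Z x ^ (1 - q) ≤ t ^ (1 - q) :=
          Real.rpow_le_rpow_of_nonpos ht0 h (by linarith)
        have h4 : 0 ≤ Z x ^ q := by have := hZ0 x; positivity
        calc Z x = Z x ^ (1 - q) * Z x ^ q := h2
          _ ≤ t ^ (1 - q) * Z x ^ q := mul_le_mul_of_nonneg_right h3 h4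
          _ ≤ _ := by linarith
  have h1 : (1 : ℝ≥0∞) ≤ ENNReal.ofReal (1 / 2) + (ENNReal.ofReal t * ν Aᶜ +
      ENNReal.ofReal (t ^ (1 - q)) * B) := by
    rw [← hZ1]
    refine (lintegral_mono hpt).trans ?_
    rw [lintegral_add_left measurable_const, lintegral_const, measure_univ, mul_one,
      lintegral_add_left (measurable_const.indicator hAm.compl),
      lintegral_indicator_const hAm.compl, lintegral_const_mul]
    · gcongr
    · exact ENNReal.measurable_ofReal.comp (hZm.pow_const q)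
  have hBe : B = ENNReal.ofReal b := (ENNReal.ofReal_toReal hB.ne).symm
  set a : ℝ := (ν A).toReal with ha
  have hAc : ν Aᶜ = ENNReal.ofReal (1 - a) := by
    rw [prob_compl_eq_one_sub hAm, ENNReal.ofReal_sub _ ENNReal.toReal_nonneg, ENNReal.ofReal_one,
      ENNReal.ofReal_toReal (measure_ne_top _ _)]
  have ha1 : a ≤ 1 := by
    rw [ha]; exact ENNReal.toReal_le_of_le_ofReal zero_le_one (by simpa using prob_le_one)
  rw [hBe, hAc, ← ENNReal.ofReal_mul ht0.le, ← ENNReal.ofReal_mul (by positivity),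
    ← ENNReal.ofReal_add (by nlinarith) (by positivity),
    ← ENNReal.ofReal_add (by norm_num) (by
      have : 0 ≤ t * (1 - a) := by nlinarith
      positivity), ENNReal.one_le_ofReal] at h1
  have h2 : 1 / 4 ≤ t * (1 - a) := by linarith
  have h3 : a ≤ 1 - 1 / (4 * t) := by
    have : 1 / (4 * t) ≤ 1 - a := by
      rw [div_le_iff₀ (by positivity)]; nlinarith
    linarith
  calc ν A = ENNReal.ofReal a := (ENNReal.ofReal_toReal (measure_ne_top _ _)).symm
    _ ≤ _ := ENNReal.ofReal_le_ofReal h3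

/-- (B) -/
theorem pw_add {a b s : ℝ} (ha : 0 < a) (hb : 0 < b) (hs : 0 ≤ s) :
    ENNReal.ofReal ((a + b) ^ (-s)) ≤ ENNReal.ofReal (2 ^ s) +
      ENNReal.ofReal (a ^ (-s)) * (if b < 1 / 2 then 1 else 0) := by
  by_cases h : b < 1 / 2
  · rw [if_pos h, mul_one]
    refine le_trans (ENNReal.ofReal_le_ofReal ?_) le_add_self
    exact Real.rpow_le_rpow_of_nonpos ha (by linarith) (by linarith)
  · rw [if_neg h, mul_zero, add_zero]
    apply ENNReal.ofReal_le_ofReal
    push Not at h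
    have h1 : (a + b) ^ (-s) ≤ (1 / 2 : ℝ) ^ (-s) :=
      Real.rpow_le_rpow_of_nonpos (by norm_num) (by linarith) (by linarith)
    rw [one_div, Real.inv_rpow (by norm_num), ← Real.rpow_neg (by norm_num), neg_neg] at h1
    exact h1

/-- (C) -/
theorem pw_mul {a b s : ℝ} (ha : 0 < a) (hb : 0 < b) (hs : 0 ≤ s) :
    ENNReal.ofReal ((a + b) ^ (-s)) ≤
      ENNReal.ofReal (a ^ (-(s / 2))) * ENNReal.ofReal (b ^ (-(s / 2))) := by
  rw [← ENNReal.ofReal_mul (by positivity)]
  apply ENNReal.ofReal_le_ofReal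
  rw [← Real.mul_rpow ha.le hb.le]
  have h1 : (a + b) ^ (-s) = ((a + b) ^ 2) ^ (-(s / 2)) := by
    rw [← Real.rpow_natCast, ← Real.rpow_mul (by linarith)]
    congr 1
    push_cast; ring
  rw [h1]
  exact Real.rpow_le_rpow_of_nonpos (by positivity) (by nlinarith) (by linarith)

/-- (R) -/
theorem recursion {d : ℕ → ℝ → ℝ≥0∞} {K : ℝ → ℝ} {c : ℝ} (hK0 : ∀ s, 0 < s → 0 ≤ K s)
    (hc : c ≤ 1) (hK : ∃ s₁ : ℝ, 0 < s₁ ∧ ∀ s, 0 < s → s ≤ s₁ → K s * (1 - c) < 1)
    (h0 : ∀ s, 0 < s → d 0 s < ∞)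
    (h1 : ∀ k s, 0 < s → d (k + 1) s ≤ ENNReal.ofReal (K s) *
      (ENNReal.ofReal (2 ^ s) + ENNReal.ofReal (1 - c) * d k s))
    (h2 : ∀ k s, 0 < s → d (k + 1) s ≤ ENNReal.ofReal (K s) * (d k (s / 2) * d k (s / 2))) :
    ∀ s, 0 < s → ∃ B : ℝ≥0∞, B < ∞ ∧ ∀ k, d k s ≤ B := by
  obtain ⟨s₁, hs₁, hK⟩ := hK
  have hsmall : ∀ s, 0 < s → s ≤ s₁ → ∃ B : ℝ≥0∞, B < ∞ ∧ ∀ k, d k s ≤ B := by
    intro s hs hss
    set ρ : ℝ := K s * (1 - c) with hρ
    have hρ1 : ρ < 1 := hK s hs hss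
    have hρ0 : 0 ≤ ρ := mul_nonneg (hK0 s hs) (by linarith)
    set M : ℝ := K s * 2 ^ s / (1 - ρ) with hM
    have hM0 : 0 ≤ M := div_nonneg (mul_nonneg (hK0 s hs) (by positivity)) (by linarith)
    refine ⟨d 0 s + ENNReal.ofReal M, ENNReal.add_lt_top.2 ⟨h0 s hs, ENNReal.ofReal_lt_top⟩, ?_⟩
    intro k
    induction k with
    | zero => exact le_self_add
    | succ k ih =>
      refine (h1 k s hs).trans ?_
      rw [mul_add, ← mul_assoc, ← ENNReal.ofReal_mul (hK0 s hs), ← ENNReal.ofReal_mul (hK0 s hs),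
        ← hρ]
      calc ENNReal.ofReal (K s * 2 ^ s) + ENNReal.ofReal ρ * d k s
          ≤ ENNReal.ofReal (K s * 2 ^ s) + ENNReal.ofReal ρ * (d 0 s + ENNReal.ofReal M) := by
            gcongr
        _ = (ENNReal.ofReal (K s * 2 ^ s) + ENNReal.ofReal (ρ * M)) + ENNReal.ofReal ρ * d 0 s := by
            rw [mul_add, ENNReal.ofReal_mul hρ0]; ring
        _ = ENNReal.ofReal M + ENNReal.ofReal ρ * d 0 s := by
            rw [← ENNReal.ofReal_add (mul_nonneg (hK0 s hs) (by positivity)) (by positivity)]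
            congr 2
            have : (1 - ρ) ≠ 0 := by linarith
            rw [hM]; field_simp; ring
        _ ≤ ENNReal.ofReal M + 1 * d 0 s := by
            gcongr
            rw [ENNReal.ofReal_le_one]; exact hρ1.le
        _ = _ := by rw [one_mul, add_comm]
  have hind : ∀ j : ℕ, ∀ s, 0 < s → s ≤ 2 ^ j * s₁ → ∃ B : ℝ≥0∞, B < ∞ ∧ ∀ k, d k s ≤ B := by
    intro j
    induction j with
    | zero => intro s hs h; exact hsmall s hs (by simpa using h)
    | succ j ih =>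
      intro s hs h
      obtain ⟨B, hB, hBk⟩ := ih (s / 2) (by linarith) (by rw [pow_succ] at h; linarith)
      refine ⟨d 0 s + ENNReal.ofReal (K s) * (B * B), ENNReal.add_lt_top.2
        ⟨h0 s hs, ENNReal.mul_lt_top ENNReal.ofReal_lt_top (ENNReal.mul_lt_top hB hB)⟩, ?_⟩
      intro k
      cases k with
      | zero => exact le_self_add
      | succ k =>
        refine le_trans ?_ le_add_self
        refine (h2 k s hs).trans ?_
        have := hBk k
        gcongr
  intro s hs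
  obtain ⟨j, hj⟩ := pow_unbounded_of_one_lt (s / s₁) (show (1 : ℝ) < 2 by norm_num)
  exact hind j s hs (by rw [div_lt_iff₀ hs₁] at hj; exact hj.le)

/-- The factor `K s = 3 ^ s * 3 ^ (m s (s + 1) / 2)` is admissible. -/
theorem K_small {m c : ℝ} (hc : 0 < c) :
    ∃ s₁ : ℝ, 0 < s₁ ∧ ∀ s, 0 < s → s ≤ s₁ →
      (3 : ℝ) ^ s * Real.exp (m * Real.log 3 * (s * (s + 1)) / 2) * (1 - c) < 1 := by
  have hcont : Continuous fun s : ℝ =>
      (3 : ℝ) ^ s * Real.exp (m * Real.log 3 * (s * (s + 1)) / 2) * (1 - c) := by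
    have : Continuous fun s : ℝ => (3 : ℝ) ^ s :=
      Real.continuous_const_rpow (by norm_num)
    fun_prop
  have h0 : (fun s : ℝ =>
      (3 : ℝ) ^ s * Real.exp (m * Real.log 3 * (s * (s + 1)) / 2) * (1 - c)) 0 < 1 := by
    simp; exact hc
  have hev := (hcont.tendsto 0).eventually_lt_const h0
  rw [Metric.eventually_nhds_iff] at hev
  obtain ⟨δ, hδ, h⟩ := hev
  refine ⟨δ / 2, by linarith, ?_⟩
  intro s hs hs2
  apply h
  rw [Real.dist_eq, sub_zero, abs_of_pos hs]; linarith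

end Pool.Agent.L5helper50.CGNeg
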